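import Pool.Agent.H18.CGR.Stmts

/-!
Board cgr, row CMT: the sums of the `X_i (F [i])` and of the `Y_i (F [i])` agree.
-/

set_option autoImplicit false

namespace Pool.CGR

theorem cmt_summable {m : ℕ} {k : Fin m → List (Fin m) → ℂ} (hk : Kb k) {E : Type}
    [NormedAddCommGroup E] [NormedSpace ℂ E] [CompleteSpace E] {B : ℝ}
    (G : Fin m → List (Fin m) → E) (hG : ∀ i v, ‖G i v‖ ≤ B * 4 ^ (v.length + 1)) :
    Summable (fun p : Fin m × List (Fin m) => k p.1 p.2 • G p.1 p.2) := by
  have h1 : Summable (fun p : Fin m × List (Fin m) => ‖k p.1 p.2‖ * 4 ^ p.2.length) := by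
    rw [summable_prod_of_nonneg (fun p => by positivity)]
    exact ⟨fun i => (hk i).1, Summable.of_finite⟩
  refine Summable.of_norm_bounded (h1.mul_right (B * 4)) fun p => ?_
  rw [norm_smul]
  calc ‖k p.1 p.2‖ * ‖G p.1 p.2‖ ≤ ‖k p.1 p.2‖ * (B * 4 ^ (p.2.length + 1)) :=
        mul_le_mul_of_nonneg_left (hG _ _) (norm_nonneg _)
    _ = ‖k p.1 p.2‖ * 4 ^ p.2.length * (B * 4) := by ring

theorem cmt_thm : CMTStmt := by
  intro m k hk hCY E _ _ _ X Y e F hF hY
  obtain ⟨B, hB⟩ := hF.bdd
  let g : List (Fin m) → E := fun w =>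
    match w with
    | [] => 0
    | i :: v => k i v • F (i :: v)
  have hg0 : g [] = 0 := rfl
  have hg : ∀ i v, g (i :: v) = k i v • F (i :: v) := fun _ _ => rfl
  have hg' : ∀ i v, g (v ++ [i]) = k i v • F (v ++ [i]) := by
    intro i v
    cases v with
    | nil => rfl
    | cons j u =>
      show k j (u ++ [i]) • F (j :: (u ++ [i])) = k i (j :: u) • F (j :: (u ++ [i]))
      rw [hCY i j u]
  clear_value g
  have hs1 : Summable (fun p : Fin m × List (Fin m) => k p.1 p.2 • F (p.1 :: p.2)) :=
    cmt_summable hk (fun i v => F (i :: v)) fun i v => by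
      have := hB (i :: v)
      rwa [List.length_cons] at this
  have hs2 : Summable (fun p : Fin m × List (Fin m) => k p.1 p.2 • F (p.2 ++ [p.1])) :=
    cmt_summable hk (fun i v => F (v ++ [i])) fun i v => by
      have := hB (v ++ [i])
      rwa [List.length_append, List.length_singleton] at this
  have hi1 : Function.Injective (fun p : Fin m × List (Fin m) => p.1 :: p.2) := by
    rintro ⟨i, v⟩ ⟨j, u⟩ h
    have h' : i :: v = j :: u := h
    rw [List.cons.injEq] at h'
    exact Prod.ext h'.1 h'.2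
  have hi2 : Function.Injective (fun p : Fin m × List (Fin m) => p.2 ++ [p.1]) := by
    rintro ⟨i, v⟩ ⟨j, u⟩ h
    have h' : v ++ [i] = u ++ [j] := h
    have h2 := List.append_inj' h' rfl
    exact Prod.ext (by simpa using h2.2) h2.1
  have e1 : ∑' p : Fin m × List (Fin m), g (p.1 :: p.2) = ∑' w, g w := by
    refine hi1.tsum_eq (f := g) ?_
    intro w hw
    cases w with
    | nil => exact absurd hg0 hw
    | cons i v => exact ⟨(i, v), rfl⟩
  have e2 : ∑' p : Fin m × List (Fin m), g (p.2 ++ [p.1]) = ∑' w, g w := by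
    refine hi2.tsum_eq (f := g) ?_
    intro w hw
    rcases List.eq_nil_or_concat w with h | ⟨v, i, h⟩
    · rw [h] at hw
      exact absurd hg0 hw
    · exact ⟨(i, v), by rw [h, List.concat_eq_append]⟩
  have hX : ∀ i, X i (F [i]) = F [i, i] + F [] + ∑' v, k i v • F (v ++ [i]) := by
    intro i
    rw [hF.step i [i]]
    have : hd i [i] F = F [] := if_pos rfl
    rw [this]
  have hY' : ∀ i, Y i (F [i]) = F [i, i] + F [] + ∑' v, k i v • F (i :: v) := by
    intro i
    rw [hY i [i]]
    have : tl i [i] F = F [] := if_pos rfl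
    rw [this]
    rfl
  have f1 : ∑ i, ∑' v, k i v • F (v ++ [i]) = ∑' w, g w := by
    rw [← e2, ← tsum_fintype (L := SummationFilter.unconditional _)]
    have h := hs2.tsum_prod
    rw [← h]
    exact tsum_congr fun p => (hg' p.1 p.2).symm
  have f2 : ∑ i, ∑' v, k i v • F (i :: v) = ∑' w, g w := by
    rw [← e1, ← tsum_fintype (L := SummationFilter.unconditional _)]
    have h := hs1.tsum_prod
    rw [← h]
    exact tsum_congr fun p => (hg p.1 p.2).symm
  simp only [hX, hY']
  rw [Finset.sum_add_distrib, f1, Finset.sum_add_distrib (g := fun i => ∑' v, k i v • F (i :: v)),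
    f2]

end Pool.CGR
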